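import Pool.Agent.Helper37_CAP.Stmts

/-!
# Squad CAP: module CBC
-/

set_option autoImplicit false

open Finset

namespace Pool.Agent.CAP.H84

/-- the number of prime factors above `z ^ 12` -/
theorem card_large (z p κ X : ℕ) (hz : 2 ≤ z) (hp : 2 ≤ p) (hκ : 1 ≤ κ) (hpX : p ≤ X) :
    ((((p ^ κ - 1).primeFactors.filter (fun w => z ^ 12 < w)).card : ℕ) : ℝ) ≤
      κ * Real.log X := by
  set K := (p ^ κ - 1).primeFactors.filter (fun w => z ^ 12 < w) with hK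
  have hpow : 2 ≤ p ^ κ := by
    calc 2 ≤ p := hp
      _ = p ^ 1 := (pow_one p).symm
      _ ≤ p ^ κ := Nat.pow_le_pow_right (by omega) hκ
  have hN : p ^ κ - 1 ≠ 0 := by omega
  have h3 : ∀ w ∈ K, (1 : ℝ) ≤ Real.log w := by
    intro w hw
    have h4 : z ^ 12 < w := (mem_filter.1 hw).2
    have h5 : 2 ^ 12 ≤ z ^ 12 := Nat.pow_le_pow_left hz 12
    have h6 : (3 : ℝ) ≤ w := by
      have : 3 ≤ w := by omega
      exact_mod_cast this
    rw [Real.le_log_iff_exp_le (by linarith)]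
    exact (Real.exp_one_lt_three.le).trans h6
  have hprod : ∏ w ∈ K, w ≤ p ^ κ - 1 := by
    refine Nat.le_of_dvd (by omega) ?_
    have h7 : ∏ w ∈ K, w ∣ ∏ w ∈ (p ^ κ - 1).primeFactors, w :=
      prod_dvd_prod_of_subset _ _ _ (filter_subset _ _)
    exact h7.trans (Nat.prod_primeFactors_dvd _)
  have hpos : ∀ w ∈ K, (w : ℝ) ≠ 0 := by
    intro w hw
    have h4 : z ^ 12 < w := (mem_filter.1 hw).2
    have : w ≠ 0 := by omega
    exact_mod_cast this
  calc ((K.card : ℕ) : ℝ) = ∑ w ∈ K, (1 : ℝ) := by simp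
    _ ≤ ∑ w ∈ K, Real.log w := sum_le_sum h3
    _ = Real.log (∏ w ∈ K, (w : ℝ)) := (Real.log_prod hpos).symm
    _ ≤ Real.log ((p : ℝ) ^ κ) := by
        refine Real.log_le_log (prod_pos fun w hw => ?_) ?_
        · exact lt_of_le_of_ne (Nat.cast_nonneg w) (hpos w hw).symm
        · have h8 : ((∏ w ∈ K, w : ℕ) : ℝ) ≤ ((p ^ κ - 1 : ℕ) : ℝ) := by exact_mod_cast hprod
          push_cast at h8
          refine h8.trans ?_
          have : ((p ^ κ - 1 : ℕ) : ℝ) ≤ ((p ^ κ : ℕ) : ℝ) := by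
            exact_mod_cast Nat.sub_le _ _
          push_cast at this
          exact this
    _ = κ * Real.log p := Real.log_pow _ _
    _ ≤ κ * Real.log X := by
        refine mul_le_mul_of_nonneg_left (Real.log_le_log ?_ ?_) (Nat.cast_nonneg _)
        · exact_mod_cast (by omega : 0 < p)
        · exact_mod_cast hpX

/-- the condition on `n` for a pair `p`, `w` -/
def GG (p w n : ℕ) : Prop := p ∣ n ∧ (n ≡ 1 [MOD w] ∨ n ≡ w - 1 [MOD w])

theorem cnt_GG (hC : CNT) (p w X : ℕ) (hp : 1 ≤ p) (hw : 1 ≤ w) (hco : Nat.Coprime p w) :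
    (cnt (GG p w) X : ℝ) ≤ 2 * ((X : ℝ) / (p * w) + 1) := by
  obtain ⟨c1, c2, -, c4, -, -⟩ := hC
  have key : ∀ b : ℕ, (cnt (fun n => p ∣ n ∧ n ≡ b [MOD w]) X : ℝ) ≤ (X : ℝ) / (p * w) + 1 := by
    intro b
    obtain ⟨a, ha0, hab⟩ := Nat.chineseRemainder hco 0 b
    have h1 := c4 a (p * w) X (Nat.mul_pos hp hw)
    push_cast at h1
    refine le_trans ?_ h1
    have h2 := c1 (fun n => p ∣ n ∧ n ≡ b [MOD w]) (fun n => n ≡ a [MOD p * w]) X (by
      rintro n - - ⟨h3, h4⟩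
      refine (Nat.modEq_and_modEq_iff_modEq_mul hco).1 ⟨?_, h4.trans hab.symm⟩
      exact ((Nat.modEq_zero_iff_dvd).2 h3).trans ha0.symm)
    exact_mod_cast h2
  have h5 := c1 (GG p w) (fun n => (p ∣ n ∧ n ≡ 1 [MOD w]) ∨ (p ∣ n ∧ n ≡ w - 1 [MOD w])) X (by
    rintro n - - ⟨h3, h4 | h4⟩
    · exact Or.inl ⟨h3, h4⟩
    · exact Or.inr ⟨h3, h4⟩)
  have h6 := c2 (fun n => p ∣ n ∧ n ≡ 1 [MOD w]) (fun n => p ∣ n ∧ n ≡ w - 1 [MOD w]) X
  have h7 : (cnt (GG p w) X : ℝ) ≤ (cnt (fun n => p ∣ n ∧ n ≡ 1 [MOD w]) X : ℝ) +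
      (cnt (fun n => p ∣ n ∧ n ≡ w - 1 [MOD w]) X : ℝ) := by
    exact_mod_cast h5.trans h6
  linarith [key 1, key (w - 1)]

theorem sum_kappa (m : ℕ) : ∑ κ ∈ Icc 1 m, (κ : ℝ) ≤ (m : ℝ) ^ 2 := by
  calc ∑ κ ∈ Icc 1 m, (κ : ℝ) ≤ ∑ κ ∈ Icc 1 m, (m : ℝ) := by
        refine sum_le_sum fun κ hκ => ?_
        exact_mod_cast (mem_Icc.1 hκ).2
    _ = (m : ℝ) ^ 2 := by
        rw [sum_const, Nat.card_Icc, nsmul_eq_mul, Nat.add_sub_cancel]
        ring

theorem sum_inv (m : ℕ) : ∑ p ∈ Icc 1 m, (1 : ℝ) / p ≤ 1 + Real.log m := by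
  have h := harmonic_le_one_add_log m
  rw [harmonic_eq_sum_Icc] at h
  push_cast at h
  simpa using h

/-- module CBC -/
theorem cbc (hC : CNT) : CBC := by
  intro z X hz hX
  obtain ⟨c1, c2, c3, c4, -, -⟩ := id hC
  classical
  set I := (Icc 1 (Nat.sqrt X)).filter Nat.Prime with hI
  set J := Icc 1 (z ^ 5) with hJ
  set K : ℕ → ℕ → Finset ℕ := fun p κ =>
    (p ^ κ - 1).primeFactors.filter (fun w => z ^ 12 < w) with hK
  have hL : 0 ≤ Real.log X := Real.log_natCast_nonneg X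
  have hX1 : (1 : ℝ) ≤ X := by exact_mod_cast hX
  have hz1 : (2 : ℝ) ≤ z := by exact_mod_cast hz
  -- the union bound
  have hU : cnt (E3 z) X ≤ ∑ p ∈ I, ∑ κ ∈ J, ∑ w ∈ K p κ, cnt (GG p w) X := by
    have h1 := c1 (E3 z) (fun n => ∃ p ∈ I, ∃ κ ∈ J, ∃ w ∈ K p κ, GG p w n) X (by
      rintro n hn hnX ⟨p, κ, w, hp, hpn, hpp, hκ, hκz, hw, hzw, hwn, hwp⟩
      refine ⟨p, ?_, κ, mem_Icc.2 ⟨hκ, hκz⟩, w, ?_, hpn, ?_⟩
      · refine mem_filter.2 ⟨mem_Icc.2 ⟨hp.one_le, ?_⟩, hp⟩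
        rw [Nat.le_sqrt']
        exact hpp.trans hnX
      · refine mem_filter.2 ⟨?_, hzw⟩
        rw [Nat.mem_primeFactors]
        refine ⟨hw, hwp, ?_⟩
        have h8 : p ≤ p ^ κ := Nat.le_self_pow (by omega) p
        have h9 := hp.two_le
        omega
      · have h2 : n ^ 2 - 1 = (n - 1) * (n + 1) := by
          obtain ⟨m, rfl⟩ : ∃ m, n = m + 1 := ⟨n - 1, by omega⟩
          have : (m + 1) ^ 2 - 1 = m * (m + 1 + 1) := by
            have : (m + 1) ^ 2 = m * (m + 1 + 1) + 1 := by ring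
            omega
          simpa using this
        rw [h2] at hwn
        rcases hw.dvd_mul.1 hwn with h3 | h3
        · left
          exact ((Nat.modEq_iff_dvd' hn).2 h3).symm
        · right
          have h4 : n + 1 ≡ (w - 1) + 1 [MOD w] := by
            have e1 : n + 1 ≡ 0 [MOD w] := (Nat.modEq_zero_iff_dvd).2 h3
            have e2 : (w - 1) + 1 ≡ 0 [MOD w] := by
              have : w - 1 + 1 = w := by have := hw.pos; omega
              rw [this]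
              exact (Nat.modEq_zero_iff_dvd).2 dvd_rfl
            exact e1.trans e2.symm
          exact Nat.ModEq.add_right_cancel' 1 h4)
    refine h1.trans ((c3 ℕ I _ X).trans (sum_le_sum fun p _ => ?_))
    refine (c3 ℕ J _ X).trans (sum_le_sum fun κ _ => ?_)
    exact c3 ℕ (K p κ) _ X
  have hU' : (cnt (E3 z) X : ℝ) ≤
      ∑ p ∈ I, ∑ κ ∈ J, ∑ w ∈ K p κ, (cnt (GG p w) X : ℝ) := by
    exact_mod_cast hU
  refine hU'.trans ?_
  -- the bound for fixed `p` and `κ`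
  have hB : ∀ p ∈ I, ∀ κ ∈ J, ∑ w ∈ K p κ, (cnt (GG p w) X : ℝ) ≤
      (κ * Real.log X) * (2 * ((X : ℝ) / (p * z ^ 12) + 1)) := by
    intro p hp κ hκ
    obtain ⟨hp1, hpp⟩ := mem_filter.1 hp
    obtain ⟨hp2, hp3⟩ := mem_Icc.1 hp1
    obtain ⟨hκ1, hκ2⟩ := mem_Icc.1 hκ
    have hpX : p ≤ X := hp3.trans (Nat.sqrt_le_self X)
    have hp0 : (0 : ℝ) < p := by exact_mod_cast hpp.pos
    have hnn : 0 ≤ 2 * ((X : ℝ) / (p * z ^ 12) + 1) := by positivity
    calc ∑ w ∈ K p κ, (cnt (GG p w) X : ℝ)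
        ≤ ∑ w ∈ K p κ, 2 * ((X : ℝ) / (p * z ^ 12) + 1) := by
          refine sum_le_sum fun w hw => ?_
          obtain ⟨hw1, hw2⟩ := mem_filter.1 hw
          obtain ⟨hw3, hw4, hw5⟩ := Nat.mem_primeFactors.1 hw1
          have hco : Nat.Coprime p w := by
            rw [Nat.coprime_primes hpp hw3]
            rintro rfl
            have h8 : p ∣ p ^ κ := dvd_pow_self p (by omega)
            have h9 : 1 ≤ p ^ κ := Nat.one_le_pow _ _ hpp.pos
            have h10 : p ∣ 1 := by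
              have := (Nat.dvd_sub h8 hw4)
              rwa [Nat.sub_sub_self h9] at this
            exact hpp.one_lt.ne' (Nat.dvd_one.1 h10)
          refine (cnt_GG hC p w X hpp.one_le hw3.one_le hco).trans ?_
          have h6 : (z : ℝ) ^ 12 ≤ w := by exact_mod_cast hw2.le
          have h7 : (X : ℝ) / (p * w) ≤ (X : ℝ) / (p * z ^ 12) := by
            gcongr
          linarith
      _ = (((K p κ).card : ℕ) : ℝ) * (2 * ((X : ℝ) / (p * z ^ 12) + 1)) := by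
          rw [sum_const, nsmul_eq_mul]
      _ ≤ _ := mul_le_mul_of_nonneg_right (card_large z p κ X hz hpp.two_le hκ1 hpX) hnn
  have hB2 : ∀ p ∈ I, ∑ κ ∈ J, ∑ w ∈ K p κ, (cnt (GG p w) X : ℝ) ≤
      (z : ℝ) ^ 10 * Real.log X * (2 * ((X : ℝ) / (p * z ^ 12) + 1)) := by
    intro p hp
    have hp0 : (0 : ℝ) < p := by exact_mod_cast (mem_filter.1 hp).2.pos
    calc ∑ κ ∈ J, ∑ w ∈ K p κ, (cnt (GG p w) X : ℝ)
        ≤ ∑ κ ∈ J, (κ * Real.log X) * (2 * ((X : ℝ) / (p * z ^ 12) + 1)) :=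
          sum_le_sum (hB p hp)
      _ = (∑ κ ∈ J, (κ : ℝ)) * (Real.log X * (2 * ((X : ℝ) / (p * z ^ 12) + 1))) := by
          rw [sum_mul]
          refine sum_congr rfl fun κ _ => ?_
          ring
      _ ≤ (((z ^ 5 : ℕ) : ℝ)) ^ 2 * (Real.log X * (2 * ((X : ℝ) / (p * z ^ 12) + 1))) :=
          mul_le_mul_of_nonneg_right (sum_kappa _) (by positivity)
      _ = _ := by
          push_cast
          ring
  calc ∑ p ∈ I, ∑ κ ∈ J, ∑ w ∈ K p κ, (cnt (GG p w) X : ℝ)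
      ≤ ∑ p ∈ I, (z : ℝ) ^ 10 * Real.log X * (2 * ((X : ℝ) / (p * z ^ 12) + 1)) :=
        sum_le_sum hB2
    _ ≤ ∑ p ∈ Icc 1 (Nat.sqrt X), (z : ℝ) ^ 10 * Real.log X *
          (2 * ((X : ℝ) / (p * z ^ 12) + 1)) := by
        refine sum_le_sum_of_subset_of_nonneg (filter_subset _ _) fun p hp _ => ?_
        have : (0 : ℝ) ≤ p := Nat.cast_nonneg p
        positivity
    _ = 2 * Real.log X * X / z ^ 2 * ∑ p ∈ Icc 1 (Nat.sqrt X), (1 : ℝ) / p +
          2 * z ^ 10 * Real.log X * (Nat.sqrt X : ℝ) := by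
        have e1 : (2 * z ^ 10 * Real.log X * (Nat.sqrt X : ℝ)) =
            ∑ p ∈ Icc 1 (Nat.sqrt X), (2 * z ^ 10 * Real.log X) := by
          rw [sum_const, Nat.card_Icc, nsmul_eq_mul, Nat.add_sub_cancel]
          ring
        rw [e1, mul_sum, ← sum_add_distrib]
        refine sum_congr rfl fun p hp => ?_
        have hp0 : (p : ℝ) ≠ 0 := by
          have := (mem_Icc.1 hp).1
          exact_mod_cast (by omega : p ≠ 0)
        have hz0 : (z : ℝ) ≠ 0 := by positivity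
        field_simp
    _ ≤ 2 * (1 + Real.log X) * X / z ^ 2 * (1 + Real.log X) +
          2 * z ^ 10 * (1 + Real.log X) * Real.sqrt X := by
        have hs : (Nat.sqrt X : ℝ) ≤ Real.sqrt X := Real.nat_sqrt_le_real_sqrt
        have h1 : ∑ p ∈ Icc 1 (Nat.sqrt X), (1 : ℝ) / p ≤ 1 + Real.log X := by
          refine (sum_inv _).trans ?_
          have h2 : (1 : ℕ) ≤ Nat.sqrt X := by
            rw [Nat.le_sqrt']
            simpa using hX
          have h3 : Real.log (Nat.sqrt X : ℝ) ≤ Real.log X := by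
            refine Real.log_le_log (by exact_mod_cast h2) ?_
            exact_mod_cast Nat.sqrt_le_self X
          linarith
        have h0 : 0 ≤ ∑ p ∈ Icc 1 (Nat.sqrt X), (1 : ℝ) / p :=
          sum_nonneg fun p _ => by positivity
        gcongr
        · linarith
        · linarith
    _ = _ := by ring

end Pool.Agent.CAP.H84
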